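import Pool.Agent.helper53.BND.SpecT

/-!
# Row bnd:TPR (MP_376aaf_an): the growth of an almost additive sequence
-/

set_option autoImplicit false

open scoped Topology
open Finset Filter

namespace Pool.Agent.BND

open Pool.Agent.CZ Pool.Agent.PV Pool.Agent.PVH

theorem TPR (hTHH : THH_stmt) : TPR_stmt := by
  intro B M hB m₀ a z C μ hC ha hz h0
  have key : ∀ m, m₀ ≤ m → ∀ v, v < (B.L m).n →
      a m v ≤ (μ + 2 * C * ((1 / 2) ^ m₀ - (1 / 2) ^ m)) * (B.L m).h v + z m v := by
    intro m hm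
    induction m, hm using Nat.le_induction with
    | base =>
      intro v hv
      rw [sub_self, mul_zero, add_zero]
      exact h0 v hv
    | succ m hm ih =>
      intro v' hv'
      have h1 := ha m v' hm hv'
      have h2 := hz m v' hm hv'
      have h3 := hTHH B M hB m v' hv'
      have h4 : ∑ v ∈ range (B.L m).n, (M m v' v : ℝ) * a m v ≤
          ∑ v ∈ range (B.L m).n, (M m v' v : ℝ) *
            ((μ + 2 * C * ((1 / 2) ^ m₀ - (1 / 2) ^ m)) * (B.L m).h v + z m v) :=
        Finset.sum_le_sum fun v hv =>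
          mul_le_mul_of_nonneg_left (ih v (Finset.mem_range.1 hv)) (Nat.cast_nonneg _)
      have h5 : ∑ v ∈ range (B.L m).n, (M m v' v : ℝ) *
            ((μ + 2 * C * ((1 / 2) ^ m₀ - (1 / 2) ^ m)) * (B.L m).h v + z m v) =
          (μ + 2 * C * ((1 / 2) ^ m₀ - (1 / 2) ^ m)) * ((B.L (m + 1)).h v' : ℝ) + z (m + 1) v' := by
        rw [h2, ← h3, Finset.mul_sum, ← Finset.sum_add_distrib]
        refine Finset.sum_congr rfl fun v _ => ?_
        ring
      rw [h5] at h4
      have h6 : ((1 : ℝ) / 2) ^ m = 2 * (1 / 2) ^ (m + 1) := by rw [pow_succ]; ring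
      rw [h6] at h1 h4
      linarith
  intro m hm v hv
  have h1 := key m hm v hv
  have h2 : (0 : ℝ) ≤ 2 * C * (1 / 2) ^ m * ((B.L m).h v : ℝ) := by positivity
  linarith

end Pool.Agent.BND
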